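import Pool.Agent.V5helper52.PT.Stm

/-!
# Job EXS of project PT (helper52)

The algebra which represents the pairs of a monic polynomial `P` of degree `n` and units `w j` with
`w j ^ E = g j * P (q j)`, and its dimension.
-/

set_option autoImplicit false

open Pool.Agent.V5helper52.FW Pool.Agent.V5helper52.PT

namespace Pool.Agent.V5helper55.PT.EXS

open Polynomial in
/-- the monic polynomial with given coefficients -/
noncomputable def poly {R : Type} [CommRing R] {n : ℕ} (c : Fin n → R) : R[X] :=
  X ^ n + ∑ i : Fin n, C (c i) * X ^ (i : ℕ)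

section poly

open Polynomial

variable {R : Type} [CommRing R] {n : ℕ} (c : Fin n → R)

lemma coeff_lt (i : Fin n) : (poly c).coeff i = c i := by
  unfold poly
  rw [coeff_add, coeff_X_pow, if_neg (by omega), zero_add, finsetSum_coeff,
    Finset.sum_eq_single i]
  · rw [coeff_C_mul, coeff_X_pow, if_pos rfl, mul_one]
  · intro j _ hj
    rw [coeff_C_mul, coeff_X_pow, if_neg (fun h => hj (Fin.ext h.symm)), mul_zero]
  · intro h
    exact absurd (Finset.mem_univ _) h

lemma coeff_self : (poly c).coeff n = 1 := by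
  unfold poly
  rw [coeff_add, coeff_X_pow, if_pos rfl, finsetSum_coeff, Finset.sum_eq_zero, add_zero]
  intro j _
  rw [coeff_C_mul, coeff_X_pow, if_neg (by omega), mul_zero]

lemma coeff_gt (m : ℕ) (hm : n < m) : (poly c).coeff m = 0 := by
  unfold poly
  rw [coeff_add, coeff_X_pow, if_neg (by omega), finsetSum_coeff, Finset.sum_eq_zero, add_zero]
  intro j _
  rw [coeff_C_mul, coeff_X_pow, if_neg (by omega), mul_zero]

lemma isMon : IsMon n (poly c) := ⟨coeff_self c, coeff_gt c⟩

lemma eq_poly {P : R[X]} (hP : IsMon n P) : P = poly (fun i : Fin n => P.coeff i) := by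
  ext m
  rcases lt_trichotomy m n with h | rfl | h
  · exact (coeff_lt (fun i : Fin n => P.coeff i) ⟨m, h⟩).symm
  · rw [hP.1, coeff_self]
  · rw [hP.2 m h, coeff_gt _ m h]

lemma map_poly {S : Type} [CommRing S] (f : R →+* S) : (poly c).map f = poly (fun i => f (c i)) := by
  unfold poly
  simp [Polynomial.map_sum]

lemma eval_poly (x : R) : (poly c).eval x = x ^ n + ∑ i : Fin n, c i * x ^ (i : ℕ) := by
  unfold poly
  simp [Polynomial.eval_finsetSum]

end poly

open MvPolynomial

variable (k : Type) [Field k] (E : ℕ) {σ : Type} [Fintype σ] (q g : σ → k) (n : ℕ)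

/-- the relations -/
noncomputable def rl (j : σ) : MvPolynomial (Fin n ⊕ σ) k :=
  X (Sum.inr j) ^ E - C (g j) * (C (q j) ^ n + ∑ i : Fin n, X (Sum.inl i) * C (q j) ^ (i : ℕ))

/-- the ideal -/
noncomputable def idl : Ideal (MvPolynomial (Fin n ⊕ σ) k) := Ideal.span (Set.range (rl k E q g n))

/-- the product of the variables -/
noncomputable def wt : MvPolynomial (Fin n ⊕ σ) k := ∏ j : σ, X (Sum.inr j)

omit [Fintype σ] in
lemma dim_quot (hE : 0 < E) : ringKrullDim (MvPolynomial (Fin n ⊕ σ) k ⧸ idl k E q g n) ≤ n := by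
  let φ : MvPolynomial (Fin n) k →ₐ[k] (MvPolynomial (Fin n ⊕ σ) k ⧸ idl k E q g n) :=
    aeval fun i => Ideal.Quotient.mk _ (X (Sum.inl i))
  let alg : Algebra (MvPolynomial (Fin n) k) (MvPolynomial (Fin n ⊕ σ) k ⧸ idl k E q g n) :=
    φ.toRingHom.toAlgebra
  have h0 : ∀ x, algebraMap (MvPolynomial (Fin n) k)
      (MvPolynomial (Fin n ⊕ σ) k ⧸ idl k E q g n) x = φ x := fun x => rfl
  have h4 : ∀ i, φ (X i) = Ideal.Quotient.mk (idl k E q g n) (X (Sum.inl i)) :=
    fun i => aeval_X _ i
  have hint : Algebra.IsIntegral (MvPolynomial (Fin n) k)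
      (MvPolynomial (Fin n ⊕ σ) k ⧸ idl k E q g n) := by
    refine ⟨fun x => ?_⟩
    obtain ⟨a, rfl⟩ := Ideal.Quotient.mk_surjective x
    induction a using MvPolynomial.induction_on with
    | C r =>
      have h1 : (Ideal.Quotient.mk (idl k E q g n) (C r)) = algebraMap (MvPolynomial (Fin n) k) _
          (C r) := by
        rw [h0]
        exact (φ.commutes r).symm
      rw [h1]
      exact isIntegral_algebraMap
    | add p p' hp hp' =>
      rw [map_add]
      exact hp.add hp'
    | mul_X p s hp =>
      rw [map_mul]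
      refine hp.mul ?_
      rcases s with i | j
      · have h1 : (Ideal.Quotient.mk (idl k E q g n) (X (Sum.inl i))) =
            algebraMap (MvPolynomial (Fin n) k) _ (X i) := by
          rw [h0]
          exact (h4 i).symm
        rw [h1]
        exact isIntegral_algebraMap
      · refine IsIntegral.of_pow (R := MvPolynomial (Fin n) k) hE ?_
        have h1 : (Ideal.Quotient.mk (idl k E q g n) (X (Sum.inr j))) ^ E =
            algebraMap (MvPolynomial (Fin n) k) _
              (C (g j) * (C (q j) ^ n + ∑ i : Fin n, X i * C (q j) ^ (i : ℕ))) := by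
          rw [← map_pow, ← sub_eq_zero, h0]
          have h2 : φ (C (g j) * (C (q j) ^ n + ∑ i : Fin n, X i * C (q j) ^ (i : ℕ))) =
              Ideal.Quotient.mk (idl k E q g n)
                (C (g j) * (C (q j) ^ n + ∑ i : Fin n, X (Sum.inl i) * C (q j) ^ (i : ℕ))) := by
            have h3 : ∀ r : k, φ (C r) = Ideal.Quotient.mk (idl k E q g n) (C r) :=
              fun r => φ.commutes r
            simp only [map_mul, map_add, map_pow, map_sum, h3, h4]
          rw [h2, ← map_sub, Ideal.Quotient.eq_zero_iff_mem]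
          exact Ideal.subset_span ⟨j, rfl⟩
        rw [h1]
        exact isIntegral_algebraMap
  refine (Pool.Agent.V5helper52.SF.dim_integral (A := MvPolynomial (Fin n) k)).trans ?_
  rw [MvPolynomial.ringKrullDim_of_isNoetherianRing, ringKrullDim_eq_zero_of_field, zero_add,
    Nat.card_fin]

theorem main (hE : 0 < E) : ∃ (D : Type) (_ : CommRing D) (_ : Algebra k D) (P : Polynomial D)
    (w : σ → D), IsS E q g n P w ∧ Algebra.FiniteType k D ∧ ringKrullDim D ≤ n := by
  have hQ := isQ_qmap (R := k) (idl k E q g n) (wt k n)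
  let Q := qmap k (idl k E q g n) (wt k (σ := σ) n)
  change IsQ _ _ Q at hQ
  refine ⟨Localization.Away (Ideal.Quotient.mk (idl k E q g n) (wt k n)), inferInstance,
    inferInstance, poly (fun i => Q (X (Sum.inl i))), fun j => Q (X (Sum.inr j)), ?_, hQ.ft,
    (Pool.Agent.Z125.UN.dim_away _).trans (dim_quot k E q g n hE)⟩
  have hC : ∀ r : k, Q (C r) = algebraMap k _ r := fun r => Q.commutes r
  refine ⟨isMon _, fun j => ?_, fun j => ?_, ?_, ?_⟩
  · have h1 := hQ.zero (rl k E q g n j) (Ideal.subset_span ⟨j, rfl⟩)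
    rw [rl, map_sub, sub_eq_zero] at h1
    rw [← map_pow, h1, eval_poly]
    simp only [map_mul, map_add, map_pow, map_sum, hC]
  · have h1 : IsUnit (Q (∏ j : σ, X (Sum.inr j))) := hQ.unit
    rw [map_prod] at h1
    exact IsUnit.prod_univ_iff.1 h1 j
  · intro F _ _ P' w' hm hr hu
    obtain ⟨h, hh⟩ := hQ.lift F (aeval (Sum.elim (fun i : Fin n => P'.coeff i) w')) (by
      intro a ha
      have h1 : idl k E q g n ≤ RingHom.ker
          (aeval (Sum.elim (fun i : Fin n => P'.coeff i) w') : MvPolynomial (Fin n ⊕ σ) k →ₐ[k] F) := by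
        rw [idl, Ideal.span_le]
        rintro _ ⟨j, rfl⟩
        change aeval _ (rl k E q g n j) = 0
        rw [rl, map_sub, sub_eq_zero, map_pow, aeval_X, Sum.elim_inr, hr j]
        conv_lhs => rw [eq_poly hm]
        rw [eval_poly]
        simp only [map_mul, map_add, map_pow, map_sum, aeval_C, aeval_X, Sum.elim_inl]
      exact h1 ha) (by
      rw [wt, map_prod]
      simp only [aeval_X, Sum.elim_inr]
      exact IsUnit.prod_univ_iff.2 hu)
    have hh' : ∀ a, h (Q a) = aeval (Sum.elim (fun i : Fin n => P'.coeff i) w') a :=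
      fun a => DFunLike.congr_fun hh a
    refine ⟨h, ?_, fun j => ?_⟩
    · rw [map_poly]
      conv_rhs => rw [eq_poly hm]
      congr 1
      ext i
      change h (Q _) = _
      rw [hh', aeval_X, Sum.elim_inl]
    · rw [hh', aeval_X, Sum.elim_inr]
  · intro F _ _ h h' hP hw
    apply hQ.ext
    apply MvPolynomial.algHom_ext
    rintro (i | j)
    · have h1 := congrArg (fun p => Polynomial.coeff p i) hP
      simp only [map_poly, coeff_lt] at h1
      exact h1
    · exact hw j

theorem t_EXS : S_EXS := by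
  intro k _ E hE σ _ q g n
  have := Fintype.ofFinite σ
  exact main k E q g n hE

end Pool.Agent.V5helper55.PT.EXS
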